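import Pool.Agent.Y407.LB.Fin

set_option autoImplicit false

/-!
Graphs with all balls of radius `r` prescribed: the minimal diameter can be exponential in `r`,
for every root degree `d ≥ 9` and for all large `r`.

The starting file `Superlinear` of this problem proves that `M_9(r)` is not `O(r)` (its argument
gives `r log r` along a sequence). Here: `M_d(r) > 2 ^ (r / 72)` for every `d ≥ 9` and all large `r`.

Idea. Put `N = 2^n - 1` and let two permutations `a, b` of `(ZMod N) × Fin 6` have the property
that words of length `O(n)` in `a, b` give the maps `x ↦ x + 1`, `x ↦ 2 x` of the zeroth sheet and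
hence all the maps `x ↦ x + i` (binary expansion of `i`, `2 ^ n = 1` modulo `N`), and that `b ^ 5`
is the transposition of two points of the zeroth sheet. So all the `N - 1` adjacent transpositions
of the zeroth sheet are words of length `O(n)`, and the whole Coxeter presentation of the
symmetric group `S_N` is visible in the balls of radius `r = O(n)` of a Cayley graph of
`⟨a, b⟩ × D_3 × C` (decorated so that the labels of the edges can be recovered from the balls).
In a graph `H` with these balls the group `S_N` acts on the vertices, and the 3-cycles act
without fixed points. By an argument of Bochert a subgroup of `S_N` without 3-cycles has a base of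
at most `N / 2` points, so that every orbit has at least `(N / 2)!` points. Since `H` is regular
of degree `d`, its diameter is at least `log ((N / 2)!) / log (d + 1)`, exponential in `r`.

The definitions `RootedGraph`, `ball`, `AllBalls`, `Realizable`, `D`, `rootDegree`, `M` are those
of the starting file.
-/

namespace Pool.Agent.Results.MP_fed0c4_co.ExponentialGrowth

open Pool.Agent.Results.MP_fed0c4_co.Superlinear Pool.Agent.Y407.LB

/-- For every root degree `d ≥ 9` there is `R` such that for all `r ≥ R` the maximum `M_d(r)` of
the minimal diameters `D(B, r)` is larger than `2 ^ ⌊r / 72⌋`; a realizable pair `(B, r)` with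
root degree `d` and `2 ^ ⌊r / 72⌋ < D(B, r) < ∞` is exhibited for each such `r`. -/
theorem result : ∀ d : ℕ, 9 ≤ d → ∃ R : ℕ, ∀ r : ℕ, R ≤ r →
    ((2 ^ (r / 72) : ℕ) : ℕ∞) < M d r ∧
    ∃ B : RootedGraph, Realizable B r ∧ rootDegree B = d ∧
      ((2 ^ (r / 72) : ℕ) : ℕ∞) < D B r ∧ D B r < ⊤ := by
  intro d hd
  by_cases h10 : d = 10
  · rw [h10]
    exact Fin.main 10 Deg.K10 0 (by omega)
  · obtain ⟨m, rfl⟩ : ∃ m, d = 9 + m := ⟨d - 9, by omega⟩
    exact Fin.main 9 Deg.K9 m (by omega)

end Pool.Agent.Results.MP_fed0c4_co.ExponentialGrowth
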